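import Pool.Agent.Lib.MP_858715_lc.Grid
import Pool.Agent.Lib.MP_858715_lc.PolyRed

/-!
# Geometric packing is W[1]-hard, parameterized by the number of pieces

All definitions of the statement are in `Pool/Agent/Lib/MP_858715_lc/Defs.lean`.
-/

namespace Pool.Agent.Results.MP_858715_lc.WOneHard

open Turing Pool.Agent.Lib.MP_858715_lc

/-- **Geometric packing is W[1]-hard, parameterized by the number `m` of pieces.** There is a
parameterized reduction from `k`-Clique, parameterized by `k`: a function `r`, computable in
polynomial time by a Turing machine (of Mathlib), which maps the instance `(G, k)` of `k`-Clique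
to an instance `r (G, k)` of geometric packing with `m = k + (k choose 2)` pieces, such that the
pieces can be placed into the container by rigid motions if and only if `G` has a clique with `k`
vertices. Moreover this holds if and only if the pieces can be placed by translations, and the
container and the pieces are orthogonal polygons on the integer grid. -/
theorem result : ∃ r : CliqueInst → Inst,
    Nonempty (TM2ComputableInPolyTime CliqueInst.encode Inst.encode r) ∧
    ∀ I : CliqueInst,
      (r I).pieces.length = I.k + I.k.choose 2 ∧
      (∀ P ∈ (r I).C :: (r I).pieces, IsGridPolygon P) ∧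
      (I.HasClique ↔ (r I).Packs) ∧
      (I.HasClique ↔ (r I).PacksTrans) := by
  have h : ∀ I : CliqueInst, (red I).PacksTrans → (red I).Packs := fun I ⟨u, hu⟩ =>
    ⟨fun _ => 0, u, hu⟩
  exact ⟨red, tm2_red, fun I => ⟨length_red I, grid_red I,
    ⟨fun hI => h I (red_trans I hI), red_packs I⟩,
    ⟨red_trans I, fun hI => red_packs I (h I hI)⟩⟩⟩

end Pool.Agent.Results.MP_858715_lc.WOneHard
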